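import Mathlib
import Pool.Agent.Helper958.KMain

set_option autoImplicit false

namespace Pool.Agent.Results.MP_de9001_an.SizeTwo

open MeasureTheory AddCircle

/-- the Banach space `L¹` of the circle -/
noncomputable abbrev L1T := Lp ℂ 1 (haarAddCircle : Measure UnitAddCircle)

/-- closed subalgebras of `L¹` under convolution: convolution is the operation which multiplies
Fourier coefficients -/
structure IsClosedSubalgebra (A : Submodule ℂ L1T) : Prop where
  closed : IsClosed (A : Set L1T)
  conv : ∀ f ∈ A, ∀ g ∈ A, ∃ h ∈ A, ∀ n : ℤ,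
    fourierCoeff (h : UnitAddCircle → ℂ) n =
      fourierCoeff (f : UnitAddCircle → ℂ) n * fourierCoeff (g : UnitAddCircle → ℂ) n

/-- the relation `r(A)`: `m ∼ n` iff the coefficients at `m` and `n` agree for all `f ∈ A` -/
def RudinRel (A : Submodule ℂ L1T) (m n : ℤ) : Prop :=
  ∀ f ∈ A, fourierCoeff (f : UnitAddCircle → ℂ) m = fourierCoeff (f : UnitAddCircle → ℂ) n

/-- `A` is the closed span of the idempotents it contains -/
def GeneratedByIdempotents (A : Submodule ℂ L1T) : Prop :=
  A = (Submodule.span ℂ {e : L1T | e ∈ A ∧ ∀ n : ℤ,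
    fourierCoeff (e : UnitAddCircle → ℂ) n * fourierCoeff (e : UnitAddCircle → ℂ) n =
      fourierCoeff (e : UnitAddCircle → ℂ) n}).topologicalClosure

/-- the synthesis property of an equivalence relation on the integers -/
def SynthesisProperty (r : Setoid ℤ) : Prop :=
  ∀ A : Submodule ℂ L1T, IsClosedSubalgebra A → (∀ m n, RudinRel A m n ↔ r m n) →
    GeneratedByIdempotents A

/-- There is an equivalence relation on `ℤ`, given by an involution of `ℤ` (so all its classes have
one or two elements and none is infinite), which occurs as the relation of a closed subalgebra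
and which does not have the synthesis property. -/
theorem result : ∃ (r : Setoid ℤ) (σ : ℤ → ℤ), Function.Involutive σ ∧
    (∀ m n, r m n ↔ m = n ∨ m = σ n) ∧
    (∃ A : Submodule ℂ L1T, IsClosedSubalgebra A ∧ (∀ m n, RudinRel A m n ↔ r m n)) ∧
    ¬ SynthesisProperty r := by
  classical
  obtain ⟨ι, u, v, hu, hv, huv, Λ, f, hf, hΛf, hΛ⟩ := Pool.Agent.Helper958.Kahane.main
  -- the involution
  have hex : ∀ n : ℤ, ∃ m : ℤ, ((∃ i, u i = n ∧ m = v i) ∨ (∃ i, v i = n ∧ m = u i)) ∨
      ((∀ i, u i ≠ n) ∧ (∀ i, v i ≠ n) ∧ m = n) := by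
    intro n
    by_cases h1 : ∃ i, u i = n
    · obtain ⟨i, hi⟩ := h1; exact ⟨v i, Or.inl (Or.inl ⟨i, hi, rfl⟩)⟩
    · by_cases h2 : ∃ i, v i = n
      · obtain ⟨i, hi⟩ := h2; exact ⟨u i, Or.inl (Or.inr ⟨i, hi, rfl⟩)⟩
      · push Not at h1 h2
        exact ⟨n, Or.inr ⟨h1, h2, rfl⟩⟩
  choose σ hσ using hex
  have su : ∀ i, σ (u i) = v i := by
    intro i
    rcases hσ (u i) with (⟨j, h1, h2⟩ | ⟨j, h1, _⟩) | ⟨h1, _, _⟩
    · rw [h2, hu h1]
    · exact absurd h1.symm (huv i j)
    · exact absurd rfl (h1 i)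
  have sv : ∀ i, σ (v i) = u i := by
    intro i
    rcases hσ (v i) with (⟨j, h1, _⟩ | ⟨j, h1, h2⟩) | ⟨_, h1, _⟩
    · exact absurd h1 (huv j i)
    · rw [h2, hv h1]
    · exact absurd rfl (h1 i)
  have hinv : Function.Involutive σ := by
    intro n
    rcases hσ n with (⟨j, h1, h2⟩ | ⟨j, h1, h2⟩) | ⟨_, _, h3⟩
    · rw [h2, sv, h1]
    · rw [h2, su, h1]
    · rw [h3, h3]
  -- coefficients of elements of the algebra are `σ`-invariant
  have hAσ : ∀ g ∈ Pool.Agent.Helper958.Kahane.Alg u v, ∀ n,
      Pool.Agent.Helper958.Kahane.cf (σ n) g = Pool.Agent.Helper958.Kahane.cf n g := by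
    intro g hg n
    rcases hσ n with (⟨j, h1, h2⟩ | ⟨j, h1, h2⟩) | ⟨_, _, h3⟩
    · rw [h2, ← h1]; exact (hg j).symm
    · rw [h2, ← h1]; exact hg j
    · rw [h3]
  let r : Setoid ℤ :=
    { r := fun m n => m = n ∨ m = σ n
      iseqv := by
        refine ⟨fun x => Or.inl rfl, ?_, ?_⟩
        · rintro x y (h | h)
          · exact Or.inl h.symm
          · right; rw [h, hinv]
        · rintro x y z (h1 | h1) (h2 | h2)
          · left; rw [h1, h2]
          · right; rw [h1, h2]
          · right; rw [h1, h2]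
          · left; rw [h1, h2, hinv] }
  have hsub : IsClosedSubalgebra (Pool.Agent.Helper958.Kahane.Alg u v) := by
    refine ⟨Pool.Agent.Helper958.Kahane.isClosed_Alg u v, ?_⟩
    intro a ha b hb
    obtain ⟨h, hh⟩ := Pool.Agent.Helper958.Kahane.exists_conv a b
    refine ⟨h, ?_, hh⟩
    intro i
    rw [hh, hh, ha i, hb i]
  have hrel : ∀ m n, RudinRel (Pool.Agent.Helper958.Kahane.Alg u v) m n ↔ r m n := by
    intro m n
    constructor
    · intro h
      -- indicator of `{n, σ n}`
      set D : Finset ℤ := {n, σ n} with hD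
      have hind : ∀ m, Pool.Agent.Helper958.Kahane.cf m
          (∑ k ∈ D, Pool.Agent.Helper958.Kahane.toL (fourier k)) = if m ∈ D then 1 else 0 := by
        intro m
        rw [map_sum]
        simp_rw [Pool.Agent.Helper958.Kahane.cf_fourier]
        rw [Finset.sum_ite_eq']
      have hDσ : ∀ k, k ∈ D ↔ σ k ∈ D := by
        intro k
        simp only [hD, Finset.mem_insert, Finset.mem_singleton]
        constructor
        · rintro (h | h)
          · right; rw [h]
          · left; rw [h, hinv]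
        · rintro (h | h)
          · right; rw [← h, hinv]
          · left; exact hinv.injective h
      have hmem : (∑ k ∈ D, Pool.Agent.Helper958.Kahane.toL (fourier k))
          ∈ Pool.Agent.Helper958.Kahane.Alg u v := by
        intro i
        rw [hind, hind, ← su i]
        simp only [← hDσ (u i)]
      have h2 := h _ hmem
      have h3 : Pool.Agent.Helper958.Kahane.cf m (∑ k ∈ D, Pool.Agent.Helper958.Kahane.toL (fourier k))
          = Pool.Agent.Helper958.Kahane.cf n (∑ k ∈ D, Pool.Agent.Helper958.Kahane.toL (fourier k)) := h2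
      rw [hind, hind, if_pos (by simp [hD] : n ∈ D)] at h3
      have h4 : m ∈ D := by
        by_contra hcon
        rw [if_neg hcon] at h3
        exact zero_ne_one h3
      have h5 : m = n ∨ m = σ n := by simpa [hD] using h4
      exact h5
    · rintro (h | h) g hg
      · rw [h]
      · rw [h]; exact hAσ g hg n
  refine ⟨r, σ, hinv, fun m n => Iff.rfl, ⟨_, hsub, hrel⟩, ?_⟩
  intro hsyn
  have hgen := hsyn _ hsub hrel
  unfold GeneratedByIdempotents at hgen
  have hmem : f ∈ (Submodule.span ℂ {e : L1T | e ∈ Pool.Agent.Helper958.Kahane.Alg u v ∧ ∀ n : ℤ,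
    fourierCoeff (e : UnitAddCircle → ℂ) n * fourierCoeff (e : UnitAddCircle → ℂ) n =
      fourierCoeff (e : UnitAddCircle → ℂ) n}).topologicalClosure := by
    rw [← hgen]; exact hf
  have hspan : (Submodule.span ℂ {e : L1T | e ∈ Pool.Agent.Helper958.Kahane.Alg u v ∧ ∀ n : ℤ,
    fourierCoeff (e : UnitAddCircle → ℂ) n * fourierCoeff (e : UnitAddCircle → ℂ) n =
      fourierCoeff (e : UnitAddCircle → ℂ) n}) ≤ LinearMap.ker (Λ : L1T →ₗ[ℂ] ℂ) := by
    rw [Submodule.span_le]
    rintro e ⟨he, hid⟩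
    exact hΛ e he hid
  have hclosed : IsClosed ((LinearMap.ker (Λ : L1T →ₗ[ℂ] ℂ) : Submodule ℂ L1T) : Set L1T) :=
    ContinuousLinearMap.isClosed_ker Λ
  have h0 : Λ f = 0 := Submodule.topologicalClosure_minimal _ hspan hclosed hmem
  rw [hΛf] at h0
  exact one_ne_zero h0

end Pool.Agent.Results.MP_de9001_an.SizeTwo
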